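import Pool.Agent.P8H49.WT.Stm

/-!
# Project WT, packages HOL and COF
-/

set_option autoImplicit false

open UpperHalfPlane MeasureTheory CongruenceSubgroup

namespace Pool.Agent.P8H16.WT

open Pool.Agent.P8H49.WT

lemma norm_term (a : ℕ → ℂ) (n : ℕ) (z : ℂ) :
    ‖a n * Complex.exp (2 * Real.pi * Complex.I * n * z)‖ =
      ‖a n‖ * Real.exp (-(2 * Real.pi * n * z.im)) := by
  rw [norm_mul, Complex.norm_exp]
  congr 2
  simp [Complex.mul_re, Complex.mul_im]

lemma summ (f : ℍ → ℂ) (a : ℕ → ℂ) (h : Expansion f a) (y : ℝ) (hy : 0 < y) :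
    Summable fun n : ℕ => ‖a n‖ * Real.exp (-(2 * Real.pi * n * y)) := by
  have h1 := (h ⟨⟨0, y⟩, hy⟩).summable.norm
  refine h1.congr fun n => ?_
  exact norm_term a n _

theorem hol : S_HOL := by
  intro f a h z hz
  have hz0 : 0 < z.im := hz
  have hU : IsOpen {w : ℂ | z.im / 2 < w.im} := isOpen_lt continuous_const Complex.continuous_im
  have h1 : DifferentiableOn ℂ (fun w : ℂ => ∑' n : ℕ, a n *
      Complex.exp (2 * Real.pi * Complex.I * n * w)) {w : ℂ | z.im / 2 < w.im} := by
    refine Complex.differentiableOn_tsum_of_summable_norm (summ f a h (z.im / 2) (by positivity))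
      (fun n => ?_) hU fun n w hw => ?_
    · fun_prop
    · rw [norm_term]
      refine mul_le_mul_of_nonneg_left (Real.exp_le_exp.2 ?_) (norm_nonneg _)
      have hw' : z.im / 2 < w.im := hw
      have h2 : 2 * Real.pi * n * (z.im / 2) ≤ 2 * Real.pi * n * w.im :=
        mul_le_mul_of_nonneg_left hw'.le (by positivity)
      linarith
  have hzU : z ∈ {w : ℂ | z.im / 2 < w.im} := by
    show z.im / 2 < z.im
    linarith
  have h2 : DifferentiableAt ℂ (fun w : ℂ => ∑' n : ℕ, a n *
      Complex.exp (2 * Real.pi * Complex.I * n * w)) z :=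
    (h1 z hzU).differentiableAt (hU.mem_nhds hzU)
  refine (h2.congr_of_eventuallyEq ?_).differentiableWithinAt
  filter_upwards [hU.mem_nhds hzU] with w hw
  have hw0 : 0 < w.im := by
    have : z.im / 2 < w.im := hw
    linarith
  have h3 := (h (ofComplex w)).tsum_eq
  rw [← h3, ofComplex_apply_of_im_pos hw0]

lemma int_exp (m n : ℕ) (h : m ≠ n) :
    ∫ x in (0 : ℝ)..1, Complex.exp (2 * Real.pi * Complex.I * ((m : ℂ) - n) * x) = 0 := by
  have hc : 2 * Real.pi * Complex.I * ((m : ℂ) - n) ≠ 0 := by
    refine mul_ne_zero Complex.two_pi_I_ne_zero (sub_ne_zero.2 ?_)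
    exact_mod_cast h
  rw [integral_exp_mul_complex hc]
  have h1 : Complex.exp (2 * Real.pi * Complex.I * ((m : ℂ) - n) * (1 : ℝ)) = 1 := by
    have := Complex.exp_int_mul_two_pi_mul_I ((m : ℤ) - n)
    rw [← this]
    congr 1
    push_cast
    ring
  rw [h1]
  simp

theorem cof : S_COF := by
  intro f a h y hy n
  set F : ℕ → ℝ → ℂ := fun m x => a m * Complex.exp (-(2 * Real.pi * m * y)) *
    Complex.exp (2 * Real.pi * Complex.I * ((m : ℂ) - n) * x) with hF
  have hterm : ∀ (m : ℕ) (x : ℝ), a m * Complex.exp (2 * Real.pi * Complex.I * m *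
      (x + y * Complex.I)) * Complex.exp (-(2 * Real.pi * Complex.I * n * x)) = F m x := by
    intro m x
    simp only [hF]
    rw [mul_assoc (a m), mul_assoc (a m), ← Complex.exp_add, ← Complex.exp_add]
    congr 2
    linear_combination (2 * Real.pi * m * y : ℂ) * Complex.I_sq
  have hnorm : ∀ (m : ℕ) (x : ℝ), ‖F m x‖ = ‖a m‖ * Real.exp (-(2 * Real.pi * m * y)) := by
    intro m x
    simp only [hF]
    rw [norm_mul, norm_mul, Complex.norm_exp, Complex.norm_exp]
    have h1 : (2 * Real.pi * Complex.I * ((m : ℂ) - n) * x).re = 0 := by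
      simp [Complex.mul_re, Complex.mul_im]
    have h2 : (-(2 * Real.pi * m * y : ℂ)).re = -(2 * Real.pi * m * y) := by
      simp [Complex.mul_re, Complex.mul_im]
    rw [h1, h2, Real.exp_zero, mul_one]
  have hs := summ f a h y hy
  have hsum : HasSum (fun m => ∫ x in (0 : ℝ)..1, F m x)
      (∫ x in (0 : ℝ)..1, f (ofComplex (x + y * Complex.I)) *
        Complex.exp (-(2 * Real.pi * Complex.I * n * x))) := by
    refine intervalIntegral.hasSum_integral_of_dominated_convergence
      (fun m _ => ‖a m‖ * Real.exp (-(2 * Real.pi * m * y))) (fun m => ?_) (fun m => ?_) ?_ ?_ ?_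
    · have hc : Continuous (F m) := by
        simp only [hF]
        fun_prop
      exact hc.aestronglyMeasurable
    · exact Filter.Eventually.of_forall fun x _ => (hnorm m x).le
    · exact Filter.Eventually.of_forall fun x _ => hs
    · exact continuous_const.intervalIntegrable _ _
    · refine Filter.Eventually.of_forall fun x _ => ?_
      have him : 0 < ((x : ℂ) + y * Complex.I).im := by simpa using hy
      have h1 := (h (ofComplex (x + y * Complex.I))).mul_right
        (Complex.exp (-(2 * Real.pi * Complex.I * n * x)))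
      rw [ofComplex_apply_of_im_pos him] at h1 ⊢
      have h2 : (fun m => F m x) = fun m => a m * Complex.exp (2 * Real.pi * Complex.I * m *
          (x + y * Complex.I)) * Complex.exp (-(2 * Real.pi * Complex.I * n * x)) :=
        funext fun m => (hterm m x).symm
      rw [h2]
      exact h1
  have h2 : HasSum (fun m => ∫ x in (0 : ℝ)..1, F m x)
      (∫ x in (0 : ℝ)..1, F n x) := by
    refine hasSum_single n fun m hm => ?_
    simp only [hF]
    rw [intervalIntegral.integral_const_mul, int_exp m n hm, mul_zero]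
  rw [hsum.unique h2]
  simp only [hF, sub_self, mul_zero, zero_mul, Complex.exp_zero, mul_one]
  simp

end Pool.Agent.P8H16.WT
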