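import Pool.Agent.P8H49.WT.Stm

/-!
# Project WT, package HTI
-/

set_option autoImplicit false

open UpperHalfPlane MeasureTheory CongruenceSubgroup

namespace Pool.Agent.P8H16.WT

open Pool.Agent.P8H49.WT

lemma den_pos (c : ℕ) (d : ℤ) (y x : ℝ) (hc : 1 ≤ c) (hy : 0 < y) :
    0 < ((c : ℝ) * x + d) ^ 2 + ((c : ℝ) * y) ^ 2 := by
  have : 0 < (c : ℝ) := by exact_mod_cast hc
  positivity

lemma cont_term (c : ℕ) (d : ℤ) (y : ℝ) (hc : 1 ≤ c) (hy : 0 < y) :
    Continuous fun x : ℝ => y / (((c : ℝ) * x + d) ^ 2 + ((c : ℝ) * y) ^ 2) :=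
  continuous_const.div (by fun_prop) fun x => (den_pos c d y x hc hy).ne'

lemma int_term (c : ℕ) (d : ℤ) (y : ℝ) (hc : 1 ≤ c) (hy : 0 < y) :
    ∫ x in (0 : ℝ)..1, y / (((c : ℝ) * x + d) ^ 2 + ((c : ℝ) * y) ^ 2) ≤ Real.pi / c ^ 2 := by
  have hc0 : (0 : ℝ) < c := by exact_mod_cast hc
  have hder : ∀ x ∈ Set.uIcc (0 : ℝ) 1, HasDerivAt
      (fun x : ℝ => Real.arctan (((c : ℝ) * x + d) / (c * y)) / (c : ℝ) ^ 2)
      (y / (((c : ℝ) * x + d) ^ 2 + ((c : ℝ) * y) ^ 2)) x := by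
    intro x _
    have h1 : HasDerivAt (fun x : ℝ => ((c : ℝ) * x + d) / (c * y)) ((c : ℝ) / (c * y)) x := by
      have := (((hasDerivAt_id x).const_mul (c : ℝ)).add_const (d : ℝ)).div_const ((c : ℝ) * y)
      simpa using this
    have h2 := (h1.arctan).div_const ((c : ℝ) ^ 2)
    refine h2.congr_deriv ?_
    have h3 := (den_pos c d y x hc hy).ne'
    have h4 : 1 + (((c : ℝ) * x + d) / (c * y)) ^ 2 =
        (((c : ℝ) * x + d) ^ 2 + ((c : ℝ) * y) ^ 2) / (c * y) ^ 2 := by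
      field_simp
      ring
    rw [h4]
    field_simp
  rw [intervalIntegral.integral_eq_sub_of_hasDerivAt hder
    ((cont_term c d y hc hy).intervalIntegrable _ _)]
  rw [← sub_div]
  have h5 := Real.arctan_lt_pi_div_two (((c : ℝ) * 1 + d) / (c * y))
  have h6 := Real.neg_pi_div_two_lt_arctan (((c : ℝ) * 0 + d) / (c * y))
  exact div_le_div_of_nonneg_right (by linarith) (by positivity)

lemma harm (n : ℕ) (t : ℝ) (ht : (n : ℝ) ≤ t) (ht1 : 1 ≤ t) :
    ∑ c ∈ Finset.Icc 1 n, (1 : ℝ) / c ≤ 1 + Real.log t := by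
  rcases Nat.eq_zero_or_pos n with rfl | hn
  · simp
    have := Real.log_nonneg ht1
    linarith
  have h1 := harmonic_le_one_add_log n
  have h2 : ((harmonic n : ℚ) : ℝ) = ∑ c ∈ Finset.Icc 1 n, (1 : ℝ) / c := by
    rw [harmonic_eq_sum_Icc]
    push_cast
    exact Finset.sum_congr rfl fun c _ => (one_div _).symm
  rw [← h2]
  refine h1.trans ?_
  have h3 : (0 : ℝ) < n := by exact_mod_cast hn
  have := Real.log_le_log h3 ht
  linarith

theorem hti : S_HTI := by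
  intro y hy hy1
  have hsq : 0 < √y := Real.sqrt_pos.2 hy
  have hsq1 : √y ≤ 1 := Real.sqrt_le_one.2 hy1
  have ht1 : 1 ≤ 2 / √y := by
    rw [le_div_iff₀ hsq]
    linarith
  have hcont : ∀ c ∈ Finset.Icc 1 ⌊2 / √y⌋₊, ∀ d ∈ Finset.Icc (-(c : ℤ) - 3) 3,
      Continuous fun x : ℝ => y / (((c : ℝ) * x + d) ^ 2 + ((c : ℝ) * y) ^ 2) :=
    fun c hc d _ => cont_term c d y (Finset.mem_Icc.1 hc).1 hy
  have h1 : ∫ x in (0 : ℝ)..1, U x y = y + ∑ c ∈ Finset.Icc 1 ⌊2 / √y⌋₊,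
      ∑ d ∈ Finset.Icc (-(c : ℤ) - 3) 3,
        ∫ x in (0 : ℝ)..1, y / (((c : ℝ) * x + d) ^ 2 + ((c : ℝ) * y) ^ 2) := by
    unfold U
    rw [intervalIntegral.integral_add]
    · congr 1
      · simp
      · rw [intervalIntegral.integral_finset_sum]
        · refine Finset.sum_congr rfl fun c hc => ?_
          rw [intervalIntegral.integral_finset_sum]
          exact fun d hd => (hcont c hc d hd).intervalIntegrable _ _
        · intro c hc
          exact (continuous_finset_sum _ fun d hd => hcont c hc d hd).intervalIntegrable _ _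
    · exact continuous_const.intervalIntegrable _ _
    · exact (continuous_finset_sum _ fun c hc =>
        continuous_finset_sum _ fun d hd => hcont c hc d hd).intervalIntegrable _ _
  have h2 : ∀ c ∈ Finset.Icc 1 ⌊2 / √y⌋₊, ∑ d ∈ Finset.Icc (-(c : ℤ) - 3) 3,
      ∫ x in (0 : ℝ)..1, y / (((c : ℝ) * x + d) ^ 2 + ((c : ℝ) * y) ^ 2) ≤
        8 * Real.pi * (1 / c) := by
    intro c hc
    have hc1 := (Finset.mem_Icc.1 hc).1
    have hc0 : (1 : ℝ) ≤ c := by exact_mod_cast hc1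
    refine (Finset.sum_le_card_nsmul _ _ (Real.pi / c ^ 2) fun d _ =>
      int_term c d y hc1 hy).trans ?_
    rw [Int.card_Icc, nsmul_eq_mul]
    have h3 : ((3 + 1 - (-(c : ℤ) - 3)).toNat : ℝ) = c + 7 := by
      have : (3 + 1 - (-(c : ℤ) - 3)) = ((c + 7 : ℕ) : ℤ) := by push_cast; ring
      rw [this, Int.toNat_natCast]
      push_cast
      ring
    rw [h3]
    have h4 : ((c : ℝ) + 7) * (Real.pi / c ^ 2) ≤ (8 * c) * (Real.pi / c ^ 2) :=
      mul_le_mul_of_nonneg_right (by linarith) (by positivity)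
    refine h4.trans (le_of_eq ?_)
    field_simp
  have h3 := Finset.sum_le_sum h2
  rw [← Finset.mul_sum] at h3
  have h4 := harm ⌊2 / √y⌋₊ (2 / √y) (Nat.floor_le (by positivity)) ht1
  have h5 : Real.log (2 / √y) = Real.log 2 - Real.log y / 2 := by
    rw [Real.log_div (by norm_num) hsq.ne', Real.log_sqrt hy.le]
  rw [h5] at h4
  have h6 : Real.log 2 ≤ 1 := by
    have := Real.log_two_lt_d9
    linarith
  have h7 : Real.log y ≤ 0 := Real.log_nonpos hy.le hy1
  have hpi := Real.pi_lt_d2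
  have hpi0 := Real.pi_pos
  rw [h1]
  have h8 : 8 * Real.pi * ∑ c ∈ Finset.Icc 1 ⌊2 / √y⌋₊, (1 : ℝ) / c ≤
      8 * Real.pi * (2 - Real.log y / 2) :=
    mul_le_mul_of_nonneg_left (by linarith) (by positivity)
  have h9 : 8 * Real.pi * (2 - Real.log y / 2) ≤ 8 * 3.15 * (2 - Real.log y / 2) :=
    mul_le_mul_of_nonneg_right (by linarith) (by linarith)
  linarith

end Pool.Agent.P8H16.WT
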