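import Pool.Agent.P8H49.WT.Stm

/-!
# Project WT, package INV
-/

set_option autoImplicit false

open UpperHalfPlane MeasureTheory CongruenceSubgroup
open scoped MatrixGroups

namespace Pool.Agent.P8H16.WT

open Pool.Agent.P8H49.WT

lemma abs_sym {c d : ℤ} (h : IsCoprime c d) : ‖(sym c d : ℂ)‖ = 1 := by
  have h1 : c.gcd (d.natAbs : ℤ) = 1 := by
    have h0 := Int.isCoprime_iff_gcd_eq_one.1 h
    have e : c.gcd (d.natAbs : ℤ) = c.gcd d := by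
      unfold Int.gcd
      rw [Int.natAbs_natCast]
    rw [e, h0]
  have h2 := jacobiSym.eq_one_or_neg_one h1
  have h3 : sym c d = 1 ∨ sym c d = -1 := by
    unfold sym
    split_ifs
    · rcases h2 with h2 | h2 <;> rw [h2] <;> simp
    · exact h2
  rcases h3 with h3 | h3 <;> rw [h3] <;> simp

lemma norm_eps (d : ℤ) : ‖eps d‖ = 1 := by
  unfold eps
  split_ifs <;> simp

theorem inv : S_INV := by
  intro N χ f hN h4 hlaw γ hγ z
  have hdet : (γ 0 0 : ℤ) * γ 1 1 - γ 0 1 * γ 1 0 = 1 := by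
    have := γ.det_coe
    rwa [Matrix.det_fin_two] at this
  have hcop : IsCoprime (γ 1 0 : ℤ) (γ 1 1) := ⟨-γ 0 1, γ 0 0, by linear_combination hdet⟩
  have hN0 : ((γ 1 0 : ℤ) : ZMod N) = 0 := Gamma0_mem.1 hγ
  have hunit : IsUnit ((γ 1 1 : ℤ) : ZMod N) := by
    refine IsUnit.of_mul_eq_one ((γ 0 0 : ℤ) : ZMod N) ?_
    have h1 := congrArg (fun t : ℤ => (t : ZMod N)) hdet
    push_cast at h1
    rw [hN0] at h1
    linear_combination h1
  have hχ : ‖χ ((γ 1 1 : ℤ) : ZMod N)‖ = 1 := by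
    obtain ⟨u, hu⟩ := hunit
    rw [← hu]
    exact DirichletCharacter.unit_norm_eq_one χ u
  set D : ℂ := ((γ 1 0 : ℤ) : ℂ) * z + ((γ 1 1 : ℤ) : ℂ) with hD
  have hden : denom γ z = D := ModularGroup.denom_apply γ z
  have hD0 : D ≠ 0 := by
    rw [← hden]
    exact denom_ne_zero γ z
  have hDpos : 0 < ‖D‖ := norm_pos_iff.2 hD0
  have hj : ‖jt (γ 1 0) (γ 1 1) z‖ = ‖D‖ ^ (1 / 2 : ℝ) := by
    unfold jt
    rw [norm_mul, norm_mul, abs_sym hcop, norm_inv, norm_eps, inv_one, one_mul, one_mul]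
    have : (1 / 2 : ℂ) = ((1 / 2 : ℝ) : ℂ) := by push_cast; rfl
    rw [this, Complex.norm_cpow_real]
  have him : (γ • z).im = z.im / ‖D‖ ^ 2 := by
    rw [ModularGroup.im_smul_eq_div_normSq, hden, Complex.normSq_eq_norm_sq]
  unfold G
  rw [hlaw γ hγ z, norm_mul, norm_mul, hχ, one_mul, norm_pow, hj, him]
  rw [Real.div_rpow z.im_pos.le (by positivity)]
  have e1 : ((‖D‖ ^ (1 / 2 : ℝ)) ^ 3 * ‖f z‖) ^ 2 = ‖D‖ ^ (3 : ℝ) * ‖f z‖ ^ 2 := by
    rw [mul_pow, ← Real.rpow_natCast, ← Real.rpow_natCast, ← Real.rpow_mul hDpos.le,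
      ← Real.rpow_mul hDpos.le]
    norm_num
  have e2 : (‖D‖ ^ 2) ^ (3 / 2 : ℝ) = ‖D‖ ^ (3 : ℝ) := by
    rw [← Real.rpow_natCast, ← Real.rpow_mul hDpos.le]
    norm_num
  rw [e1, e2]
  have e3 : ‖D‖ ^ (3 : ℝ) ≠ 0 := (Real.rpow_pos_of_pos hDpos _).ne'
  field_simp

end Pool.Agent.P8H16.WT
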